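import Pool.Agent.U724C.Bridge

/-!
# The standard conjecture of Künneth type in terms of pairs of classes

Let `X` be a smooth proper variety of dimension `n` over a field, `W` a Weil cohomology theory with
coefficient field `K`, and `S` a set of degrees, for instance `S = {i}`. By a correspondence we mean
a linear combination, with coefficients in `K`, of operators on `H(X)` given by algebraic cycles of
codimension `n` on `X × X` (`Corr`). Let `H_S` be the sum of the `H^i(X)`, `i ∈ S`.

1. If the characteristic polynomials of all algebraic cycles on all the `H^i(X)` have rational
   coefficients, then the projector onto the degrees in `S` is given by a rational cycle if and only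
   if it is a correspondence.
2. The following are equivalent: the projector is a correspondence; for every two single classes
   `x ∈ H^i(X)`, `y ∈ H^j(X)`, `i ∈ S`, `j ∉ S`, there is a correspondence `u`, which may depend on
   `x` and `y`, with `u x = x` and `u y = 0`; every subspace of `H(X)` which is stable under the
   correspondences is the sum of its intersections with `H_S` and with the sum of the other groups;
   no irreducible composition factor of `H_S` is isomorphic to a composition factor of the sum of
   the other groups; the characteristic polynomials of one rational cycle on `H^i(X)` and on
   `H^j(X)` are coprime for all `i ∈ S`, `j ∉ S`.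
3. This is the case if, for all `i ∈ S`, the correspondences act irreducibly on `H^i(X)` and its
   dimension is larger than the dimension of `H^j(X)` for all `j ∉ S`.
4. Let moreover a group `Γ` act on `H(X)` as a Galois group does. If the action on `H^i(X)`,
   `i ∈ S`, is semisimple, it suffices that for all `i ∈ S`, `j ∉ S` every irreducible subspace `U`
   of `H^i(X)` is contained in the span of the `u U`, where `u` are the correspondences which are
   zero on `H^j(X)`. If it is irreducible, it suffices that for all `i ∈ S`, `j ∉ S` some
   correspondence is zero on `H^j(X)` but not on `H^i(X)`.
-/

open Pool.Agent.H914 Pool.Agent.U724C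

universe u v w

namespace Pool.Agent.Results.MP_4ca46c_ag.PairsOfClasses

/-- **The Künneth standard conjecture in terms of pairs of classes.** -/
theorem result {k : Type u} [Field k] {𝒱 : VarClass k} {ops : CycleOps 𝒱}
    (W : WeilCohomology.{u, v} ops) (X : 𝒱.Obj) (S : Set ℕ) :
    ((cohSys W X).Rational → ((cohSys W X).CycleProj S ↔ (cohSys W X).CorrProj S)) ∧
    List.TFAE [(cohSys W X).CorrProj S, (cohSys W X).Pairs S, (cohSys W X).Splitting S,
      ¬ (cohSys W X).Linked ((cohSys W X).part S) ((cohSys W X).part Sᶜ),
      (cohSys W X).CoprimeCycle S] ∧
    ((cohSys W X).Large S → (cohSys W X).CorrProj S) ∧
    (cohSys W X).SemisimpleRule.{v, w} S ∧ (cohSys W X).IrreducibleRule.{v, w} S :=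
  main' W X S

end Pool.Agent.Results.MP_4ca46c_ag.PairsOfClasses
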